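import Pool.Agent.Helper66_DF.StmtsE
import Pool.Agent.Helper6_PP.Slice

/-!
# Squad DF, module CMP: the components inherit the control of the defect groups
-/

open scoped BigOperators

noncomputable section

namespace Pool.Agent.DF.H29

open Pool.Agent.Helper51_AWC Pool.Agent.Helper79_WRA Pool.Agent.PP Pool.Agent.PP.H6
  Pool.Agent.PP.H46

section core

variable {F Y : Type} [Field F] [Group Y] [Finite Y]

theorem br_nil {ℓ : ℕ} (hF : GoodF ℓ F) {Q : Subgroup Y} (hQ : IsPGroup ℓ Q) {a : Y → F}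
    (ha : IsCl a) (hn : NilF a) : NilF (br Q a) := by
  rw [nilF_iff] at hn ⊢
  obtain ⟨k, hk⟩ := hn
  refine ⟨k, ?_⟩
  have h := H66.br_iter hF hQ (H66.IsCl.inv ha Q) (H66.IsCl.inv ha Q) k
  rw [hk, H66.br_zero] at h
  exact h.symm

/-- The Brauer map does not kill the block `b` of a central product if it does not kill the block
of the factor under `b`. -/
theorem core (hibn : IbnStmt) (heig : EigStmt) {ℓ : ℕ} (hF : GoodF ℓ F) {K K' : Subgroup Y}
    (hc : ∀ x ∈ K, ∀ y ∈ K', x * y = y * x) (hs : K ⊔ K' = ⊤)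
    (hz : ¬ ℓ ∣ Nat.card (Subgroup.center Y)) {b : Y → F} (hb : IsBlk b) {f : K → F}
    (hf : BlkU K b f) {Q : Subgroup K} (hQ : IsPGroup ℓ Q)
    (h0 : ∃ g ∈ Subgroup.centralizer (Q : Set K), f g ≠ 0) :
    ∃ g ∈ Subgroup.centralizer ((Q.map K.subtype : Subgroup Y) : Set Y), b g ≠ 0 := by
  by_contra hcon
  push Not at hcon
  obtain ⟨n, ρ, hρ, hρb⟩ := exists_rep hibn heig hF hb.1 hb.2.1
  have := Fintype.ofFinite K'
  have h1 := ev_slice hc hs ρ b
  rw [hρb] at h1
  have hne := card_inter_ne hF hc hs hz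
  have h2 : ∃ p : K', ev ρ (ext0 K (sl K b p)) ≠ 0 := by
    by_contra hcon2
    push Not at hcon2
    rw [Finset.sum_eq_zero (fun p _ => by rw [hcon2 p, zero_mul])] at h1
    have hpos := hρ.1
    have h3 := congrFun (congrFun h1 ⟨0, hpos⟩) ⟨0, hpos⟩
    rw [Matrix.smul_apply, Matrix.one_apply_eq, Matrix.zero_apply, smul_eq_mul, mul_one] at h3
    exact hne h3
  obtain ⟨p, hp⟩ := h2
  have hzc : IsCl (sl K b p) := sl_cl hc hb.1.1 p.2
  obtain ⟨c, hcn⟩ := loc hibn heig hF hf.1 hzc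
  have hcl : IsCl (mulF (sl K b p) f - c • f) := by
    have h2 : IsCl (mulF (sl K b p) f) := by
      rw [isCl_iff, ma_mul]
      exact Subalgebra.mul_mem _ ((isCl_iff _).1 hzc) ((isCl_iff f).1 hf.1.1.1)
    exact (cfs F K).sub_mem h2 ((cfs F K).smul_mem c hf.1.1.1)
  have hρf : ev ρ (ext0 K f) = 1 := by
    have h3 := ev_mulF ρ (ext0 K f) b
    rw [hf.2, hρb, mul_one] at h3
    exact h3.symm
  have hc0 : c ≠ 0 := by
    rintro rfl
    have h2 := ev_nil hρ (ext0_cl hc hs hcl) (ext0_nil hcn)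
    rw [zero_smul, sub_zero, ext0_mul, ev_mulF, hρf, mul_one] at h2
    exact hp h2
  have hbz : br Q (sl K b p) = 0 := by
    funext x
    by_cases hx : x ∈ Subgroup.centralizer (Q : Set K)
    · rw [H66.br_of_mem hx]
      refine hcon ((x : Y) * p) ?_
      rw [Subgroup.mem_centralizer_iff]
      rintro _ ⟨q, hq, rfl⟩
      have h3 : q * x = x * q := Subgroup.mem_centralizer_iff.1 hx q hq
      have h4 : (q : Y) * x = x * q := congrArg Subtype.val h3
      change (q : Y) * (x * p) = x * p * q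
      rw [← mul_assoc, h4, mul_assoc, mul_assoc, hc q q.2 p p.2]
    · rw [H66.br_of_not_mem hx]
      rfl
  have hbw : br Q (mulF (sl K b p) f - c • f) = (-c) • br Q f := by
    have h3 := H66.br_mulF hF hQ (H66.IsCl.inv hzc Q) (H66.IsCl.inv hf.1.1.1 Q)
    rw [hbz] at h3
    funext x
    have h4 := congrFun h3 x
    have h5 : mulF (0 : K → F) (br Q f) x = 0 := by
      unfold mulF
      simp
    rw [h5] at h4
    by_cases hx : x ∈ Subgroup.centralizer (Q : Set K)
    · rw [H66.br_of_mem hx] at h4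
      rw [H66.br_of_mem hx, Pi.sub_apply, h4, Pi.smul_apply, Pi.smul_apply, H66.br_of_mem hx,
        zero_sub, smul_eq_mul, smul_eq_mul, neg_mul]
    · rw [H66.br_of_not_mem hx, Pi.smul_apply, H66.br_of_not_mem hx, smul_zero]
  have hnil := br_nil hF hQ hcl hcn
  rw [hbw] at hnil
  have hid : ma (br Q f) * ma (br Q f) = ma (br Q f) := by
    rw [← ma_mul, ← H66.br_mulF hF hQ (H66.IsCl.inv hf.1.1.1 Q) (H66.IsCl.inv hf.1.1.1 Q),
      hf.1.1.2]
  obtain ⟨k, hk⟩ := hnil
  rw [ma_smul, smul_pow] at hk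
  have h6 : ma (br Q f) = 0 := by
    have h7 : ma (br Q f) ^ (k + 1) = ma (br Q f) := IsIdempotentElem.pow_succ_eq k hid
    have h8 : ma (br Q f) ^ k = 0 := by
      have h9 : (-c) ^ k ≠ 0 := pow_ne_zero _ (neg_ne_zero.2 hc0)
      exact (smul_eq_zero.1 hk).resolve_left h9
    rw [← h7, pow_succ, h8, zero_mul]
  have h7 : br Q f = 0 := by
    apply ma_injective
    rw [h6, ma_zero]
  obtain ⟨g, hg, hg0⟩ := h0
  apply hg0
  have h8 := congrFun h7 g
  rw [H66.br_of_mem hg] at h8
  exact h8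

end core

/-- CMPE -/
theorem cmpE (hibn : IbnStmt) (heig : EigStmt) : CmpEStmt := by
  intro ℓ _ 𝒟 h𝒟 F _ hF G _ _ N _ b hb I _ _ K bK act hK hdf i P hP hp hg
  obtain ⟨g, hg, hg0⟩ := hg
  have hgK : (g : G) ∈ K i := by
    by_contra h
    exact hg0 ((hK.sblk i).supp g (fun h' => h (Subgroup.mem_subgroupOf.1 h')))
  have hb' : IsBlk b := by
    have h := hb.blk
    rwa [restr_ext0] at h
  -- the image of `P` in `G`
  have hPK : P.map (Subgroup.normalizer (K i : Set G)).subtype ≤ K i := by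
    rintro _ ⟨q, hq, rfl⟩
    exact Subgroup.mem_subgroupOf.1 (hP hq)
  have hsup : K i ⊔ (⨆ (j : I) (_ : j ≠ i), K j) = N := by
    rw [← hK.sup]
    apply le_antisymm
    · apply sup_le (le_iSup K i)
      exact iSup₂_le (fun j _ => le_iSup K j)
    · apply iSup_le
      intro j
      by_cases hj : j = i
      · rw [hj]
        exact le_sup_left
      · exact le_trans (le_iSup₂ (f := fun (j : I) (_ : j ≠ i) => K j) j hj) le_sup_right
  have hle' : (⨆ (j : I) (_ : j ≠ i), K j) ≤ N := iSup₂_le (fun j _ => hK.le j)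
  have hcG : ∀ x ∈ K i, ∀ y ∈ (⨆ (j : I) (_ : j ≠ i), K j : Subgroup G), x * y = y * x := by
    intro x hx y hy
    have h1 : (⨆ (j : I) (_ : j ≠ i), K j : Subgroup G) ≤ Subgroup.centralizer ({x} : Set G) := by
      apply iSup₂_le
      intro j hj z hz
      rw [Subgroup.mem_centralizer_singleton_iff]
      exact hK.comm j i hj z hz x hx
    have h2 := h1 hy
    rw [Subgroup.mem_centralizer_singleton_iff] at h2
    exact h2.symm
  have hs : (K i).subgroupOf N ⊔ (⨆ (j : I) (_ : j ≠ i), K j : Subgroup G).subgroupOf N = ⊤ := by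
    rw [← Subgroup.subgroupOf_sup (hK.le i) hle', hsup, Subgroup.subgroupOf_self]
  have hc : ∀ x ∈ (K i).subgroupOf N, ∀ y ∈ (⨆ (j : I) (_ : j ≠ i), K j : Subgroup G).subgroupOf N,
      x * y = y * x := by
    intro x hx y hy
    apply Subtype.ext
    exact hcG x (Subgroup.mem_subgroupOf.1 hx) y (Subgroup.mem_subgroupOf.1 hy)
  -- the image of `P` in the component
  let Q : Subgroup ((K i).subgroupOf N) :=
    (P.map (Subgroup.normalizer (K i : Set G)).subtype).comap
      (N.subtype.comp ((K i).subgroupOf N).subtype)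
  have hQp : IsPGroup ℓ Q := by
    apply IsPGroup.comap_of_injective (hp.map _)
    exact N.subtype_injective.comp ((K i).subgroupOf N).subtype_injective
  have hgN : (g : G) ∈ N := hK.le i hgK
  obtain ⟨y, hy, hy0⟩ := core hibn heig hF hc hs hK.center hb' (hK.blk i) hQp
    ⟨⟨⟨(g : G), hgN⟩, Subgroup.mem_subgroupOf.2 hgK⟩, by
      rw [Subgroup.mem_centralizer_iff]
      rintro q hq
      obtain ⟨u, hu, hu'⟩ := hq
      have h1 := Subgroup.mem_centralizer_iff.1 hg u hu
      have h2 : (u : G) * g = g * u := congrArg Subtype.val h1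
      have h3 : (u : G) = ((q : N) : G) := hu'
      apply Subtype.ext
      apply Subtype.ext
      change ((q : N) : G) * g = g * ((q : N) : G)
      rw [← h3]
      exact h2, hg0⟩
  have h1 : 𝒟 (P.map (Subgroup.normalizer (K i : Set G)).subtype) := by
    refine hdf _ (hPK.trans (hK.le i)) (hp.map _) ⟨(y : G), ?_, ?_⟩
    · rw [Subgroup.mem_centralizer_iff]
      intro q hq
      have hqK : q ∈ K i := hPK hq
      have h2 := Subgroup.mem_centralizer_iff.1 hy (⟨q, hK.le i hqK⟩ : N)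
        ⟨⟨⟨q, hK.le i hqK⟩, Subgroup.mem_subgroupOf.2 hqK⟩, hq, rfl⟩
      exact congrArg Subtype.val h2
    · rw [ext0_of_mem b y.2]
      exact hy0
  exact h𝒟 P _ (P.equivMapOfInjective _ (Subgroup.subtype_injective _)).toMonoidHom
    (P.equivMapOfInjective _ (Subgroup.subtype_injective _)).injective h1

end Pool.Agent.DF.H29
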